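import Pool.Agent.P.MP_689636_co.Signed

open Pool.Agent.P.MP_689636_co

theorem Pool.Agent.Results.MP_689636_co.SignedBWX.result :
    ∀ a k : ℕ, a + a ≤ k → ∀ p : Equiv.Perm (Fin k),
      (∀ i : Fin k, ((i : ℕ) < a ∨ k ≤ i + a) → p i = i) → ∀ (n : ℕ) (J : Set ℕ),
      {w : Equiv.Perm (PM n) | IsSigned w ∧ ¬ Contains w (oneLine p) ∧
          {i : PM n | 0 < (i : ℤ) ∧ 0 < (w i : ℤ)}.ncard ∈ J}.ncard =
        {w : Equiv.Perm (PM n) | IsSigned w ∧ ¬ Contains w (flipEnds a p) ∧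
          {i : PM n | 0 < (i : ℤ) ∧ 0 < (w i : ℤ)}.ncard ∈ J}.ncard :=
  Pool.Agent.P.MP_689636_co.BWX.signed_bwx

/-- Q1 is the instance `a = 2`, `p` the identity, `J` the set of all natural numbers. -/
theorem Pool.Agent.Results.MP_689636_co.SignedBWX.instance_Q1 :
    ∀ k : ℕ, 5 ≤ k → ∀ n : ℕ,
      {w : Equiv.Perm (PM n) | IsSigned w ∧ ¬ Contains w (iota k)}.ncard =
        {w : Equiv.Perm (PM n) | IsSigned w ∧ ¬ Contains w (tau k)}.ncard := by
  intro k hk n
  have e1 : oneLine (1 : Equiv.Perm (Fin k)) = iota k := rfl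
  have e2 : flipEnds 2 (1 : Equiv.Perm (Fin k)) = tau k := by
    funext r
    have := r.2
    simp only [flipEnds, tau, Equiv.Perm.one_apply]
    split_ifs <;> omega
  have := Pool.Agent.Results.MP_689636_co.SignedBWX.result 2 k (by omega) 1 (fun _ _ => rfl) n
    Set.univ
  rw [e1, e2] at this
  simpa using this
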